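import Mathlib
import Pool.Agent.H671U.Pre

set_option autoImplicit false

namespace Pool.Agent.Results.MP_3554b5_lc.PreorderCharP

open Pool.Agent.H671U

/-- In an infinite NIP field of positive characteristic (possibly with extra structure) every
definable total preorder is generically constant under all affine shifts: for all finite sets `S` of
nonzero scalars and `F` of translations there is `x` such that `a * x + y` is equivalent to `a * x`
for all `a` in `S` and `y` in `F`. In particular no linear order on the field is definable. -/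
theorem result (L : FirstOrder.Language.{0, 0}) (K : Type) [Field K] [Infinite K] [L.Structure K]
    (q : ℕ) [Fact q.Prime] [CharP K q]
    (hadd : Set.Definable (∅ : Set K) L {v : Fin 3 → K | v 0 + v 1 = v 2})
    (hmul : Set.Definable (∅ : Set K) L {v : Fin 3 → K | v 0 * v 1 = v 2})
    (hnip : ∀ (m k : ℕ) (φ : L.Formula (Fin m ⊕ Fin k)), ∃ N : ℕ, ∀ a : Fin N → Fin m → K,
        ¬ ∀ S : Set (Fin N), ∃ b : Fin k → K,
            ∀ i : Fin N, (φ.Realize (Sum.elim (a i) b) ↔ i ∈ S))
    (R : K → K → Prop)
    (hR : Set.Definable (Set.univ : Set K) L {v : Fin 2 → K | R (v 0) (v 1)})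
    (htot : ∀ x y, R x y ∨ R y x) (htrans : ∀ x y z, R x y → R y z → R x z) :
    ∀ S F : Finset K, (0 : K) ∉ S →
      ∃ x : K, ∀ a ∈ S, ∀ y ∈ F, R (a * x + y) (a * x) ∧ R (a * x) (a * x + y) := by
  intro S F hS
  obtain ⟨k, hk⟩ := noShatter_of_nip hadd hmul hnip R hR
  exact generic_constant q R htot htrans hk S F hS

end Pool.Agent.Results.MP_3554b5_lc.PreorderCharP
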